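import Pool.Agent.helper64.QF.Spec

/-!
# Project pq (MP_b9b9c0_an): module PP2, derivatives of polynomial maps at zero
-/

set_option autoImplicit false

namespace Pool.Agent.helper64.QF

open Metric MeasureTheory Set Filter Topology
open Pool.Agent.helper37.PR

/-- the differential of the polynomial function `ev p` at `z` -/
noncomputable def PP2_D {n : ℕ} (p : MvPolynomial (Fin n) ℂ) (z : E n) : E n →L[ℂ] ℂ :=
  ∑ i, (ev (MvPolynomial.pderiv i p) z) • (EuclideanSpace.proj i : E n →L[ℂ] ℂ)

lemma PP2_D_apply {n : ℕ} (p : MvPolynomial (Fin n) ℂ) (z w : E n) :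
    PP2_D p z w = ∑ i, ev (MvPolynomial.pderiv i p) z * w i := by
  simp [PP2_D]

lemma PP2_has {n : ℕ} (p : MvPolynomial (Fin n) ℂ) (z : E n) :
    HasFDerivAt (ev p : E n → ℂ) (PP2_D p z) z := by
  induction p using MvPolynomial.induction_on with
  | C a =>
    have h1 : (ev (MvPolynomial.C a) : E n → ℂ) = fun _ => a := by
      funext x
      simp [ev]
    have h2 : PP2_D (MvPolynomial.C a) z = 0 := by
      ext w
      rw [PP2_D_apply]
      simp [ev]
    rw [h1, h2]
    exact hasFDerivAt_const a z
  | add p q hp hq =>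
    have h1 : (ev (p + q) : E n → ℂ) = fun x => ev p x + ev q x := by
      funext x
      simp [ev]
    have h2 : PP2_D (p + q) z = PP2_D p z + PP2_D q z := by
      ext w
      rw [add_apply, PP2_D_apply, PP2_D_apply, PP2_D_apply, ← Finset.sum_add_distrib]
      refine Finset.sum_congr rfl fun i _ => ?_
      simp only [ev, map_add]
      ring
    rw [h1, h2]
    exact hp.add hq
  | mul_X p i hp =>
    have h1 : (ev (p * MvPolynomial.X i) : E n → ℂ) = fun x => ev p x * x i := by
      funext x
      simp [ev]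
    have h0 : HasFDerivAt (fun x : E n => x i) (EuclideanSpace.proj i : E n →L[ℂ] ℂ) z :=
      (EuclideanSpace.proj i : E n →L[ℂ] ℂ).hasFDerivAt
    have h2 : PP2_D (p * MvPolynomial.X i) z =
        ev p z • (EuclideanSpace.proj i : E n →L[ℂ] ℂ) + z i • PP2_D p z := by
      ext w
      rw [add_apply, smul_apply, smul_apply,
        PP2_D_apply, PP2_D_apply]
      have h3 : ∀ j : Fin n, ev (MvPolynomial.pderiv j (p * MvPolynomial.X i)) z * w j =
          (if j = i then ev p z * w j else 0) + z i * (ev (MvPolynomial.pderiv j p) z * w j) := by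
        intro j
        rw [Derivation.leibniz, MvPolynomial.pderiv_X]
        by_cases hj : j = i
        · subst hj
          simp only [ev, smul_eq_mul, map_add, map_mul, MvPolynomial.eval_X, Pi.single_eq_same, if_true,
            map_one]
          ring
        · have : (Pi.single j (1 : MvPolynomial (Fin n) ℂ) : Fin n → MvPolynomial (Fin n) ℂ) i = 0 := by
            rw [Pi.single_apply, if_neg (fun e => hj e.symm)]
          rw [if_neg hj]
          simp only [ev, smul_eq_mul, map_add, map_mul, MvPolynomial.eval_X]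
          rw [this]
          simp only [map_zero]
          ring
      rw [Finset.sum_congr rfl fun j _ => h3 j, Finset.sum_add_distrib, Finset.sum_ite_eq' Finset.univ i,
        if_pos (Finset.mem_univ i), smul_eq_mul, smul_eq_mul, Finset.mul_sum]
      rfl
    rw [h1, h2]
    exact hp.mul h0

/-- the differential of the polynomial map -/
noncomputable def PP2_M {n : ℕ} (p : Fin n → MvPolynomial (Fin n) ℂ) (z : E n) : E n →L[ℂ] E n :=
  ((PiLp.continuousLinearEquiv 2 ℂ (fun _ : Fin n => ℂ)).symm : (Fin n → ℂ) →L[ℂ] E n).comp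
    (ContinuousLinearMap.pi fun j => PP2_D (p j) z)

lemma PP2_M_apply {n : ℕ} (p : Fin n → MvPolynomial (Fin n) ℂ) (z w : E n) (j : Fin n) :
    (PP2_M p z w) j = ∑ i, ev (MvPolynomial.pderiv i (p j)) z * w i := by
  rw [← PP2_D_apply]
  rfl

lemma PP2_hasM {n : ℕ} (p : Fin n → MvPolynomial (Fin n) ℂ) (z : E n) :
    HasFDerivAt (pm p : E n → E n) (PP2_M p z) z := by
  have h := (hasFDerivWithinAt_euclidean (𝕜 := ℂ) (f := (pm p : E n → E n)) (f' := PP2_M p z) (t := univ)
    (y := z)).2 ?_
  · exact h.hasFDerivAt_of_univ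
  · intro j
    have h2 : HasFDerivWithinAt (fun x : E n => pm p x j) (PP2_D (p j) z) univ z :=
      (PP2_has (p j) z).hasFDerivWithinAt
    exact h2

lemma PP2_an {n : ℕ} (p : Fin n → MvPolynomial (Fin n) ℂ) :
    ContDiff ℂ ⊤ (pm p : E n → E n) := by
  rw [contDiff_euclidean]
  intro j
  have h := AnalyticOnNhd.eval_continuousLinearMap' (𝕜 := ℂ) (B := ℂ) (σ := Fin n)
    (fun i => (EuclideanSpace.proj i : E n →L[ℂ] ℂ)) (p j)
  exact (contDiff_omega_iff_analyticOnNhd.2 h)

theorem PP2 : PP2_stmt := by
  intro n p hp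
  refine ⟨contDiff_omega_iff_analyticOnNhd.1 (PP2_an p), ?_, ?_, ?_⟩
  · ext j
    exact hp j
  · intro z
    rw [(PP2_hasM p 0).fderiv]
    ext j
    rw [PP2_M_apply]
    change _ = lin (p j) z
    unfold lin
    refine Finset.sum_congr rfl fun i _ => ?_
    rw [mul_comm]
    rfl
  · intro z
    have hc : ContDiff ℂ 2 (pm p : E n → E n) := (PP2_an p).of_le (by exact_mod_cast le_top)
    have hd : DifferentiableAt ℂ (fderiv ℂ (pm p : E n → E n)) 0 :=
      ((hc.fderiv_right (m := 1) (by norm_num)).differentiable (by norm_num)).differentiableAt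
    have h1 : fderiv ℂ (fderiv ℂ (pm p : E n → E n)) 0 z z =
        fderiv ℂ (fun x => fderiv ℂ (pm p : E n → E n) x z) 0 z := by
      have h := (hd.hasFDerivAt.clm_apply (hasFDerivAt_const z (0 : E n))).fderiv
      rw [h]
      simp
    have h2 : (fun x => fderiv ℂ (pm p : E n → E n) x z) =
        pm (fun j => ∑ i, MvPolynomial.C (z i) * MvPolynomial.pderiv i (p j)) := by
      funext x
      rw [(PP2_hasM p x).fderiv]
      ext j
      rw [PP2_M_apply]
      change _ = ev _ x
      simp only [ev, map_sum, map_mul, MvPolynomial.eval_C]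
      refine Finset.sum_congr rfl fun i _ => ?_
      ring
    unfold P2
    rw [iteratedFDeriv_two_apply, h1, h2, (PP2_hasM _ 0).fderiv]
    ext j
    change (1 / 2 : ℂ) • (PP2_M _ 0 z) j = quad (p j) z
    rw [PP2_M_apply, smul_eq_mul]
    unfold quad
    congr 1
    refine Finset.sum_congr rfl fun i _ => ?_
    rw [map_sum]
    unfold ev
    rw [map_sum, Finset.sum_mul]
    refine Finset.sum_congr rfl fun k _ => ?_
    have h0 : (fun i : Fin n => (0 : E n) i) = fun _ => (0 : ℂ) := by
      funext i
      rfl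
    rw [h0, Derivation.leibniz, MvPolynomial.pderiv_C, smul_zero, add_zero, smul_eq_mul, map_mul,
      MvPolynomial.eval_C]
    ring

end Pool.Agent.helper64.QF
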